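import Pool.Agent.J6H21.UC.Steiner2

/-!
# At most 34 unit cubes touch a unit cube in positive area

`N` is the largest number of unit cubes, in any position and orientation, whose interiors are disjoint from one another and from
the interior of a fixed unit cube `G`, and each of which meets the boundary of `G` in positive area. Known: `24 ≤ N ≤ 72`, and
`N = 24` is conjectured. We prove `N ≤ 34`.

Proof. Let `r = 23 / 20`. Every cube `C_i` contains a point `p_i` of `G`. The volume of the part of `C_i` within the distance `r`
of `p_i` is at least `g = vol ([0, 1]^3 ∩ r B)`, `B` the unit ball: in the coordinates of `C_i`, with `p_i` as the origin, this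
part is the intersection of `r B` with the box `∏ [-a_j, 1 - a_j]`, `0 ≤ a_j ≤ 1`, and this intersection has the least volume
when all `a_j` are `0` (`Pool.Agent.J6H21.UC.ball_slabs_r`; one coordinate at a time). Here `8 g` is at least the volume
`4 π r ^ 3 / 3` of `r B` minus the volumes `π (r - 1) ^ 2 (2 r + 1) / 3` of the six caps of `r B` beyond the planes
`x_j = ± 1` (`Pool.Agent.J6H21.UC.vol_cap`). All these parts lie in `G + r B`, whose volume is
`1 + 6 r + 3 π r ^ 2 + 4 π r ^ 3 / 3` by the formula of Steiner (`Pool.Agent.J6H21.UC.R.vol_steiner`), and outside the interior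
of `G`. Hence `k g ≤ 6 r + 3 π r ^ 2 + 4 π r ^ 3 / 3`, which gives `k < 35`.
-/

set_option autoImplicit false

namespace Pool.Agent.Results.MP_53fdf1_co.ThirtyFourCubes

open Pool.Agent.J6H21.UC

/-- **At most 34 unit cubes touch a unit cube in positive area.** Every admissible family of unit cubes, in any position and
orientation, has at most `34` members; so the largest number `N` of members is at most `34`. -/
theorem result :
    (∀ (k : ℕ) (c : Fin k → E) (L : Fin k → (E ≃ₗᵢ[ℝ] E)), Admissible k c L → k ≤ 34) ∧ N ≤ 34 :=
  ⟨fun _ _ _ h => R.bound h, R.N_le⟩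

end Pool.Agent.Results.MP_53fdf1_co.ThirtyFourCubes
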